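import Pool.Agent.H59.KI.QF
import Pool.Agent.H43.AS.Wd
import Pool.Agent.H60.ZC.CX4
import Pool.Agent.H24.AB.H1c
import Pool.Agent.H24.VP.Nef
import Pool.Agent.H24.VP.Hda2
import Pool.Agent.H83.AY.Hrt
import Pool.Agent.H83.TU.AM

/-!
# [H59 KI Pcl] ABUNDANCE (MP_e49dc9_ag): the pencil

`a, b` sections of `P ^ m`, `a / b` transcendental.  Remove the common zeros (`pole` of H60/ZC/CX4 with `W = 1`, `φ = a / b`, `E = prin b * P ^ m`): `G` effective, `1` and
`ζ = a / b` sections of `G` without common zeros in codimension one (`Cop`, by normality), `R := E G⁻¹` effective.  `T(P,P,G) = 0`: `0 ≤ T(P,P,G)`, `0 ≤ T(P,P,R)`, their sum is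
`m T(P,P,P) = 0` (`P` nef: `T(A,A,·) ≥ 0` on effective divisors for `A` ample, `A P ^ n` ample).  `T(P,G,G) ≤ 0`: the index theorem for the form `T(.,.,A P ^ n)`, `n → ∞`.
-/

set_option autoImplicit false

namespace Pool.Agent.H59.KI

open Pool.Agent.H54.RV Pool.Agent.H83.TU Pool.Agent.H83.TK Pool.Agent.H24.TK Pool.Agent.H43.AS
open Pool.Agent.H24.VP (RR Nf nf_pow nn_eff hdg_L hdg_amp pos_amp t_int numz_T)

variable {k K : Type} [Field k] [Field K] [Algebra k K] {X : Mod k K}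
  {T : Cart X → Cart X → Cart X → ℝ} {l : Cart X → ℝ} {c : ℝ} {P : Cart X}

private theorem lin_np {a b : ℝ} (h : ∀ n : ℕ, n * b ≤ a) : b ≤ 0 := by
  by_contra hb
  push Not at hb
  obtain ⟨n, hn⟩ := exists_nat_gt (a / b)
  rw [div_lt_iff₀ hb] at hn
  have := h n
  linarith

private theorem prin_T0 [CharZero k] [T0Space X.P] (h : Hyp X) (hr : RR T l c) (f : K) (hf : f ≠ 0) (A B : Cart X) :
    T (prin X f hf) A B = 0 :=
  numz_T h hr (numz_prin f hf) A B

theorem ppe_nn [CharZero k] [T0Space X.P] (h : Hyp X) (hr : RR T l c) (hP : Nf P) {E : Cart X} (hE : Effective E) :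
    0 ≤ T P P E := by
  obtain ⟨A, hA⟩ := h.amp
  have h1 : ∀ n : ℕ, (n : ℝ) * (- T P P E) ≤ T P A E := by
    intro n
    have h2 := nn_eff h hr hP (nf_pow hA hP n) hE
    rw [hr.tri.add2, hr.tri.pow2] at h2
    linarith
  have := lin_np h1
  linarith

theorem index_nef [CharZero k] [T0Space X.P] (h : Hyp X) (hr : RR T l c) (hP : Nf P) (h3 : T P P P = 0)
    (hPPA : ∀ A : Cart X, Ample A → 0 < T P P A) {G : Cart X} (hG : T P P G = 0) : T P G G ≤ 0 := by
  obtain ⟨A, hA⟩ := h.amp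
  have hpa := hPPA A hA
  have key : ∀ n : ℕ, (n : ℝ) * (T P P A * T P G G) ≤ T P G A ^ 2 - T P P A * T G G A := by
    intro n
    have hH := nf_pow hA hP n
    have e1 : T P P (A * P ^ n) = T P P A := by rw [hr.tri.add3, hr.tri.pow3, h3]; ring
    have e2 : T G G (A * P ^ n) = T G G A + n * T P G G := by
      rw [hr.tri.add3, hr.tri.pow3, hr.tri.s23 G G P, hr.tri.s12 G P G]
    have e3 : T P G (A * P ^ n) = T P G A := by
      rw [hr.tri.add3, hr.tri.pow3, hr.tri.s23 P G P, hG]; ring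
    have h2 := hdg_L hr.tri (t_int hr ⟨A, hA⟩) (pos_amp h hr hH hH hH) (fun E hE => hdg_amp h hr hH E hE) P G
      (by rw [e1]; exact hpa)
    rw [e1, e2, e3] at h2
    linarith
  have h4 := lin_np key
  by_contra hc
  push Not at hc
  have := mul_pos hpa hc
  linarith

theorem nml_ufd (h : Hyp X) : Pool.Agent.H83.AY.Nml X := by
  intro x a ha
  have := h.ufd x
  have := Pool.Agent.H83.AY.fr_O h.var h.gen x
  obtain ⟨b, hb⟩ := (IsIntegrallyClosed.isIntegral_iff (R := X.O x) (K := K)).1 ha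
  rw [← hb]
  exact b.2

theorem pcl [CharZero k] [IsAlgClosed k] [T0Space X.P] (h : Hyp X) (hr : RR T l c)
    (hP : ∀ B : Cart X, Ample B → Ample (B * P)) (h3 : T P P P = 0) (hPPA : ∀ A : Cart X, Ample A → 0 < T P P A)
    {m : ℕ} {a b : K} (ha : Sec (P ^ m) 1 a) (hb : Sec (P ^ m) 1 b) (ha0 : a ≠ 0) (hb0 : b ≠ 0) :
    ∃ (G : Cart X) (s t : K), Sec G 1 s ∧ Sec G 1 t ∧ s ≠ 0 ∧ t ≠ 0 ∧ s / t = a / b ∧ Cop G s t ∧ T P P G = 0 ∧
      T P G G ≤ 0 := by
  obtain ⟨E, hE⟩ : ∃ E : Cart X, E = prin X b hb0 * P ^ m := ⟨_, rfl⟩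
  have hEq : ∀ x, E.eq x = b * (P ^ m).eq x := fun x => by rw [hE]; rfl
  have hEe : Effective E := fun x => by
    rw [hEq]
    simpa using hb x
  have hφ : Sec (1 * E) 1 (a / b) := by
    intro x
    rw [one_mul, pow_one, hEq]
    have h1 : a / b * (b * (P ^ m).eq x) = a * (P ^ m).eq x := by field_simp
    rw [h1]
    simpa using ha x
  obtain ⟨G, hG1, hG2, hG3, hG4⟩ := Pool.Agent.H60.ZC.pole h hr hEe hφ
  rw [one_mul] at hG3
  have hT1 := ppe_nn h hr hP hG1
  have hT2 := ppe_nn h hr hP hG2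
  have hTE : T P P E = 0 := by
    rw [hE, hr.tri.add3, hr.tri.pow3, h3, hr.tri.s23, hr.tri.s12, prin_T0 h hr]
    ring
  rw [hr.tri.add3, hr.tri.inv3, hTE] at hT2
  have hG0 : T P P G = 0 := by linarith
  refine ⟨G, a / b, 1, hG3, fun x => ?_, div_ne_zero ha0 hb0, one_ne_zero, div_one _, ?_, hG0,
    index_nef h hr hP h3 hPPA hG0⟩
  · rw [one_mul, pow_one]
    exact hG1 x
  · intro x α h1 h2
    refine Pool.Agent.H83.AY.hrt h.var h.gen (nml_ufd h) x fun Q hQ => ?_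
    have hle : X.O x ≤ X.O Q.η := h.var.spec _ _ hQ
    have hq := quo_un G Q.η x hQ
    have hGQ := G.ne Q.η
    have hGx := G.ne x
    by_cases hu : Un (X.O Q.η) (G.eq Q.η)
    · -- `G` is trivial at `Q`
      have h4 : α * G.eq x ∈ X.O Q.η := by
        rw [one_mul] at h2
        exact hle h2
      have h5 : α = α * G.eq x * ((G.eq x / G.eq Q.η)⁻¹ * (G.eq Q.η)⁻¹) := by
        field_simp
      rw [h5]
      exact mul_mem h4 (mul_mem hq.2.2 hu.2.2)
    · have hu' := hG4 Q hu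
      rw [one_mul] at hu'
      have h4 : α * (a / b * G.eq x) ∈ X.O Q.η := hle h1
      have h5 : α = α * (a / b * G.eq x) * ((G.eq x / G.eq Q.η)⁻¹ * (a / b * G.eq Q.η)⁻¹) := by
        field_simp
      rw [h5]
      exact mul_mem h4 (mul_mem hq.2.2 hu'.2.2)

end Pool.Agent.H59.KI
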