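import Mathlib

/-!
# [H59 KI Tra] ABUNDANCE (MP_e49dc9_ag): fields in which two elements are always algebraically dependent
-/

set_option autoImplicit false

namespace Pool.Agent.H59.KI

variable {k K : Type} [Field k] [Field K] [Algebra k K]

/-- everything is algebraic over `k(ζ)` -/
theorem alg_of (F : IntermediateField k K) (hdep : ∀ x ∈ F, ∀ y ∈ F, ¬ AlgebraicIndependent k ![x, y])
    {ζ : K} (hζF : ζ ∈ F) (hζ : Transcendental k ζ) {x : K} (hx : x ∈ F) :
    IsAlgebraic (IntermediateField.adjoin k {ζ}) x := by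
  by_contra hno
  have h1 : AlgebraicIndependent k (fun _ : Unit => ζ) := by
    rw [algebraicIndependent_unique_type_iff]
    exact hζ
  have h2 : Transcendental (Algebra.adjoin k (Set.range fun _ : Unit => ζ)) x := by
    intro h3
    apply hno
    have h4 : Algebra.adjoin k (Set.range fun _ : Unit => ζ) ≤ (IntermediateField.adjoin k {ζ}).toSubalgebra := by
      refine Algebra.adjoin_le ?_
      rintro _ ⟨_, rfl⟩
      exact IntermediateField.mem_adjoin_simple_self k ζ
    obtain ⟨p, hp0, hp⟩ := h3
    refine ⟨p.map (Subalgebra.inclusion h4).toRingHom, ?_, ?_⟩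
    · rw [Ne, Polynomial.map_eq_zero_iff]
      · exact hp0
      · exact Subalgebra.inclusion_injective h4
    · rw [Polynomial.aeval_def, Polynomial.eval₂_map]
      exact hp
  have h3 := (h1.option_iff_transcendental x).2 h2
  obtain ⟨e, he⟩ : ∃ e : Fin 2 → Option Unit, e = ![none, some ()] := ⟨_, rfl⟩
  have hinj : Function.Injective e := by
    intro i j hij
    rw [he] at hij
    fin_cases i <;> fin_cases j <;> simp_all
  have h4 := h3.comp e hinj
  apply hdep x hx ζ hζF
  have h5 : ((fun o : Option Unit => o.elim x fun _ => ζ) ∘ e) = ![x, ζ] := by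
    funext i
    rw [he]
    fin_cases i <;> rfl
  rwa [h5] at h4

theorem trd_one (F : IntermediateField k K) (hdep : ∀ x ∈ F, ∀ y ∈ F, ¬ AlgebraicIndependent k ![x, y])
    {ζ : K} (hζF : ζ ∈ F) (hζ : Transcendental k ζ) : Algebra.trdeg k F = 1 := by
  obtain ⟨z, hz⟩ : ∃ z : F, z = ⟨ζ, hζF⟩ := ⟨_, rfl⟩
  have hzt : Transcendental k z := by
    have h1 : algebraMap F K z = ζ := by rw [hz]; rfl
    rw [← h1] at hζ
    exact (transcendental_algebraMap_iff (algebraMap F K).injective).1 hζ
  have h1 : AlgebraicIndependent k (fun _ : Unit => z) := by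
    rw [algebraicIndependent_unique_type_iff]
    exact hzt
  have halg : Algebra.IsAlgebraic (Algebra.adjoin k (Set.range fun _ : Unit => z)) F := by
    refine ⟨fun x => ?_⟩
    by_contra hno
    have h3 := (h1.option_iff_transcendental x).2 hno
    obtain ⟨e, he⟩ : ∃ e : Fin 2 → Option Unit, e = ![none, some ()] := ⟨_, rfl⟩
    have hinj : Function.Injective e := by
      intro i j hij
      rw [he] at hij
      fin_cases i <;> fin_cases j <;> simp_all
    have h4 := (h3.comp e hinj).map' (f := F.val) F.val.injective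
    apply hdep x x.2 ζ hζF
    have h5 : (F.val ∘ ((fun o : Option Unit => o.elim x fun _ => z) ∘ e)) = ![(x : K), ζ] := by
      funext i
      rw [he, hz]
      fin_cases i <;> rfl
    rwa [h5] at h4
  have h2 : IsTranscendenceBasis k (fun _ : Unit => z) := by
    rw [h1.isTranscendenceBasis_iff_isAlgebraic]
    exact halg
  have h3 := h2.cardinalMk_eq_trdeg
  rw [← h3]
  simp

end Pool.Agent.H59.KI
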