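import Pool.Agent.H59.KI.QF

/-!
# [H59 KI Trd] ABUNDANCE (MP_e49dc9_ag): no quadratic growth: the field of quotients has transcendence degree one

If `x, y ∈ qF P` are algebraically independent, `w, w x, w y` sections of `P ^ N` (common denominator), `N ≥ 1`, then the `w ^ (2 j) x ^ i y ^ l`, `i, l ≤ j`, are independent
sections of `P ^ (2 N j)`: `h0 (P ^ (2 N j)) ≥ (j + 1) ^ 2`; with nonzero sections of `P ^ s` for all large `s` this gives quadratic growth.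
-/

set_option autoImplicit false

namespace Pool.Agent.H59.KI

open Pool.Agent.H54.RV Pool.Agent.H83.TU Pool.Agent.H24.TK

variable {k K : Type} [Field k] [Field K] [Algebra k K] {X : Mod k K} {P : Cart X}

/-- monomials in algebraically independent elements are linearly independent -/
theorem mon_indep {x y : K} (h : AlgebraicIndependent k ![x, y]) (j : ℕ) {w : K} (hw : w ≠ 0) :
    LinearIndependent k (fun p : Fin (j + 1) × Fin (j + 1) => w * (x ^ (p.1 : ℕ) * y ^ (p.2 : ℕ))) := by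
  have h1 : LinearIndependent k (fun m : Fin 2 →₀ ℕ => MvPolynomial.aeval ![x, y] (MvPolynomial.monomial m (1 : k))) := by
    have h2 := (MvPolynomial.basisMonomials (Fin 2) k).linearIndependent.map' (MvPolynomial.aeval (R := k) ![x, y]).toLinearMap
      (LinearMap.ker_eq_bot.2 h)
    have e : (fun m : Fin 2 →₀ ℕ => MvPolynomial.aeval ![x, y] (MvPolynomial.monomial m (1 : k))) =
        (MvPolynomial.aeval (R := k) ![x, y]).toLinearMap ∘ (MvPolynomial.basisMonomials (Fin 2) k) := by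
      funext m
      simp [MvPolynomial.coe_basisMonomials]
    rw [e]
    exact h2
  obtain ⟨e, he⟩ : ∃ e : Fin (j + 1) × Fin (j + 1) → (Fin 2 →₀ ℕ),
      e = fun p => Finsupp.equivFunOnFinite.symm ![(p.1 : ℕ), (p.2 : ℕ)] := ⟨_, rfl⟩
  have hinj : Function.Injective e := by
    intro p q hpq
    rw [he] at hpq
    have h3 := Finsupp.equivFunOnFinite.symm.injective hpq
    have h4 := congrFun h3 0
    have h5 := congrFun h3 1
    simp only [Matrix.cons_val_zero, Matrix.cons_val_one] at h4 h5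
    exact Prod.ext (Fin.ext h4) (Fin.ext h5)
  have h3 := (h1.comp e hinj).map' (LinearMap.mulLeft k w) (LinearMap.ker_eq_bot.2 (fun a b hab => mul_left_cancel₀ hw hab))
  have h4 : (fun p : Fin (j + 1) × Fin (j + 1) => w * (x ^ (p.1 : ℕ) * y ^ (p.2 : ℕ))) =
      (LinearMap.mulLeft k w) ∘ ((fun m : Fin 2 →₀ ℕ => MvPolynomial.aeval ![x, y] (MvPolynomial.monomial m (1 : k))) ∘ e) := by
    funext p
    simp only [Function.comp_apply, LinearMap.mulLeft_apply, MvPolynomial.aeval_monomial, map_one, one_mul]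
    rw [Finsupp.prod_fintype _ _ (fun i => pow_zero _), Fin.prod_univ_two, he]
    simp
  rw [h4]
  exact h3

theorem h0_mulle [∀ D : Cart X, Module.Finite k (secL D 1)] {m n : ℕ} {u : K} (hu : Sec (P ^ n) 1 u) (hu0 : u ≠ 0) :
    h0 (P ^ m) 1 ≤ h0 (P ^ (m + n)) 1 := by
  let e : secL (P ^ m) 1 →ₗ[k] secL (P ^ (m + n)) 1 :=
    { toFun := fun s => ⟨s.1 * u, sec_mulP s.2 hu⟩
      map_add' := fun s t => Subtype.ext (add_mul _ _ _)
      map_smul' := fun c s => Subtype.ext (smul_mul_assoc _ _ _) }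
  refine LinearMap.finrank_le_finrank_of_injective (f := e) fun s t hst => Subtype.ext ?_
  have h1 : s.1 * u = t.1 * u := congrArg Subtype.val hst
  exact mul_right_cancel₀ hu0 h1

theorem trd_dep (hfd : ∀ D : Cart X, Module.Finite k (secL D 1)) {n₁ : ℕ} (hn₁ : ∀ n, n₁ ≤ n → 0 < h0 (P ^ n) 1)
    (hng : ¬ ∃ c₀ : ℝ, 0 < c₀ ∧ ∃ n₀ : ℕ, ∀ n : ℕ, n₀ ≤ n → c₀ * (n : ℝ) ^ 2 ≤ h0 (P ^ n) 1)
    {x y : K} (hx : x ∈ qF P) (hy : y ∈ qF P) : ¬ AlgebraicIndependent k ![x, y] := by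
  intro hind
  apply hng
  obtain ⟨m, a, b, ha, hb, hb0, hab⟩ := hx
  obtain ⟨n, a', b', ha', hb', hb0', hab'⟩ := hy
  have hsec : ∀ n, n₁ ≤ n → ∃ u : K, Sec (P ^ n) 1 u ∧ u ≠ 0 := by
    intro n hn
    have h1 := hn₁ n hn
    have h2 : secL (P ^ n) 1 ≠ ⊥ := by
      intro hb
      rw [h0, hb, finrank_bot] at h1
      exact lt_irrefl _ h1
    obtain ⟨u, hu, hu0⟩ := Submodule.exists_mem_ne_zero_of_ne_bot h2
    exact ⟨u, hu, hu0⟩
  obtain ⟨u, hu, hu0⟩ := hsec (n₁ + 1) (by omega)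
  obtain ⟨N, hN⟩ : ∃ N, N = m + n + (n₁ + 1) := ⟨_, rfl⟩
  obtain ⟨w, hw⟩ : ∃ w, w = b * b' * u := ⟨_, rfl⟩
  have hw0 : w ≠ 0 := by
    rw [hw]
    exact mul_ne_zero (mul_ne_zero hb0 hb0') hu0
  have hw1 : Sec (P ^ N) 1 w := by
    rw [hw, hN]
    exact sec_mulP (sec_mulP hb hb') hu
  have hwx : Sec (P ^ N) 1 (w * x) := by
    have e : w * x = a * b' * u := by
      rw [hw, ← hab]
      ring
    rw [e, hN]
    exact sec_mulP (sec_mulP ha hb') hu
  have hwy : Sec (P ^ N) 1 (w * y) := by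
    have e : w * y = b * a' * u := by
      rw [hw, ← hab']
      ring
    rw [e, hN]
    exact sec_mulP (sec_mulP hb ha') hu
  have hmem : ∀ (j : ℕ) (p : Fin (j + 1) × Fin (j + 1)),
      Sec (P ^ (N * (2 * j))) 1 (w ^ (2 * j) * (x ^ (p.1 : ℕ) * y ^ (p.2 : ℕ))) := by
    intro j p
    have h1 := p.1.2
    have h2 := p.2.2
    obtain ⟨q, hq⟩ : ∃ q, 2 * j = (p.1 : ℕ) + (p.2 : ℕ) + q := ⟨2 * j - ((p.1 : ℕ) + (p.2 : ℕ)), by omega⟩
    rw [hq, pow_add, pow_add]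
    have e : w ^ (p.1 : ℕ) * w ^ (p.2 : ℕ) * w ^ q * (x ^ (p.1 : ℕ) * y ^ (p.2 : ℕ)) =
        (w * x) ^ (p.1 : ℕ) * (w * y) ^ (p.2 : ℕ) * w ^ q := by ring
    rw [e, mul_add, mul_add]
    exact sec_mulP (sec_mulP (sec_powP hwx _) (sec_powP hwy _)) (sec_powP hw1 _)
  have hdim : ∀ j : ℕ, (j + 1) ^ 2 ≤ h0 (P ^ (N * (2 * j))) 1 := by
    intro j
    haveI := hfd (P ^ (N * (2 * j)))
    have h1 := mon_indep hind j (pow_ne_zero (2 * j) hw0)
    have h2 : LinearIndependent k (fun p : Fin (j + 1) × Fin (j + 1) => (⟨_, hmem j p⟩ : secL (P ^ (N * (2 * j))) 1)) := by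
      refine LinearIndependent.of_comp (secL (P ^ (N * (2 * j))) 1).subtype ?_
      exact h1
    have h3 := h2.fintype_card_le_finrank
    rw [Fintype.card_prod, Fintype.card_fin, ← sq] at h3
    exact h3
  haveI := hfd
  obtain ⟨M, hM⟩ : ∃ M, M = 2 * N := ⟨_, rfl⟩
  have hM0 : 0 < M := by omega
  refine ⟨1 / ((M : ℝ) + n₁) ^ 2, by positivity, n₁, fun t ht => ?_⟩
  obtain ⟨j, hj⟩ : ∃ j, j = (t - n₁) / M := ⟨_, rfl⟩
  obtain ⟨s, hs⟩ : ∃ s, s = n₁ + (t - n₁) % M := ⟨_, rfl⟩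
  have hdiv := Nat.div_add_mod (t - n₁) M
  have hmod := Nat.mod_lt (t - n₁) hM0
  have hts : t = N * (2 * j) + s := by
    have e : N * (2 * j) = M * j := by
      rw [hM]
      ring
    rw [e, hj, hs]
    omega
  obtain ⟨v, hv, hv0⟩ := hsec s (by omega)
  have h1 := (hdim j).trans (h0_mulle (m := N * (2 * j)) hv hv0)
  rw [← hts] at h1
  have h2 : t ≤ (M + n₁) * (j + 1) := by
    have e : M * j ≤ t - n₁ := by
      rw [hj]
      exact Nat.mul_div_le _ _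
    have e2 : t < M * j + M + n₁ := by
      rw [hj]
      omega
    nlinarith
  have h3 : (t : ℝ) ≤ ((M : ℝ) + n₁) * (j + 1) := by exact_mod_cast h2
  have h4 : ((j : ℝ) + 1) ^ 2 ≤ h0 (P ^ t) 1 := by exact_mod_cast h1
  have h5 : (0 : ℝ) < (M : ℝ) + n₁ := by positivity
  calc 1 / ((M : ℝ) + n₁) ^ 2 * (t : ℝ) ^ 2 ≤ 1 / ((M : ℝ) + n₁) ^ 2 * (((M : ℝ) + n₁) * (j + 1)) ^ 2 := by
        apply mul_le_mul_of_nonneg_left _ (by positivity)
        exact pow_le_pow_left₀ (by positivity) h3 2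
    _ = ((j : ℝ) + 1) ^ 2 := by
        field_simp
    _ ≤ _ := h4

end Pool.Agent.H59.KI
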