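import Pool.Agent.H59.KI.FinA
import Pool.Agent.H59.KI.Pcl
import Pool.Agent.H59.KI.Trd
import Pool.Agent.H59.KI.Tra

/-!
# [H59 KI Ki] ABUNDANCE (MP_e49dc9_ag): the data of the proof by contradiction

`P` nef, `T(P,P,P) = 0`, `l(P) > 0`, no quadratic growth: `F = qF P`, the field of the quotients of the sections of the multiples of `P`, has transcendence degree `1` over `k`
(`trd_dep`, `trd_one`), contains a pencil `ζ = s / t` (`pcl`) and is finite over `k(ζ)` (`fin_alg`).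
-/

set_option autoImplicit false

namespace Pool.Agent.H59.KI

open Pool.Agent.H54.RV Pool.Agent.H83.TU Pool.Agent.H83.TK Pool.Agent.H24.TK Pool.Agent.H43.AS
open Pool.Agent.H24.VP (RR)

variable {k K : Type} [Field k] [Field K] [Algebra k K] {X : Mod k K}
  {T : Cart X → Cart X → Cart X → ℝ} {l : Cart X → ℝ} {c : ℝ}

theorem tra_of [IsAlgClosed k] {a b : K} (h : LinearIndependent k ![b, a]) : Transcendental k (a / b) := by
  intro halg
  have hb0 : b ≠ 0 := h.ne_zero 0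
  have h1 : IsIntegral k (a / b) := halg.isIntegral
  have h2 := IsAlgClosed.degree_eq_one_of_irreducible k (minpoly.irreducible h1)
  obtain ⟨c, hc⟩ := minpoly.mem_range_of_degree_eq_one k (a / b) h2
  rw [LinearIndependent.pair_iff] at h
  have h3 := h (-c) 1 (by
    rw [neg_smul, one_smul, Algebra.smul_def, hc, div_mul_cancel₀ _ hb0]
    ring)
  exact one_ne_zero h3.2

theorem ki [CharZero k] [IsAlgClosed k] [T0Space X.P] (h : Hyp X) (hr : RR T l c) {P : Cart X}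
    (hP : ∀ B : Cart X, Ample B → Ample (B * P)) (h3 : T P P P = 0) (hPPA : ∀ A : Cart X, Ample A → 0 < T P P A)
    (hl : 0 < l P)
    (hng : ¬ ∃ c₀ : ℝ, 0 < c₀ ∧ ∃ n₀ : ℕ, ∀ n : ℕ, n₀ ≤ n → c₀ * (n : ℝ) ^ 2 ≤ h0 (P ^ n) 1) :
    ∃ (F : IntermediateField k K) (G : Cart X) (s t : K),
      (∀ x : F, ∃ (m : ℕ) (a b : K), Sec (P ^ m) 1 a ∧ Sec (P ^ m) 1 b ∧ b ≠ 0 ∧ algebraMap F K x * b = a) ∧
      (∀ (m : ℕ) (a b : K), Sec (P ^ m) 1 a → Sec (P ^ m) 1 b → b ≠ 0 → ∃ x : F, algebraMap F K x * b = a) ∧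
      Algebra.trdeg k F = 1 ∧ Sec G 1 s ∧ Sec G 1 t ∧ s ≠ 0 ∧ t ≠ 0 ∧ Transcendental k (s / t) ∧ Cop G s t ∧
      T P P G = 0 ∧ T P G G ≤ 0 ∧
      ∃ hF : IntermediateField.adjoin k {s / t} ≤ F,
        FiniteDimensional (IntermediateField.adjoin k {s / t}) (IntermediateField.extendScalars hF) := by
  obtain ⟨A, hA⟩ := h.amp
  have hfd : ∀ D : Cart X, Module.Finite k (secL D 1) := fun D => fd h.var h.gen hA D
  obtain ⟨C, n₀, hlow⟩ := Pool.Agent.H24.AB.h0_low h hr hA hP h3 (hPPA A hA) (Q := 1)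
    (fun B hB => by rwa [mul_one]) (fun U V => hr.tri.one U V)
  obtain ⟨n₁, hn₁⟩ := exists_nat_gt ((C + 2) / l P)
  rw [div_lt_iff₀ hl] at hn₁
  have hbig : ∀ n, max n₀ n₁ ≤ n → 2 ≤ h0 (P ^ n) 1 := by
    intro n hn
    have h1 := hlow n ((le_max_left _ _).trans hn)
    rw [mul_one] at h1
    have h2 : (n₁ : ℝ) ≤ n := by exact_mod_cast (le_max_right _ _).trans hn
    have h3 : (2 : ℝ) ≤ h0 (P ^ n) 1 := by nlinarith
    exact_mod_cast h3
  have hdep : ∀ x ∈ qF P, ∀ y ∈ qF P, ¬ AlgebraicIndependent k ![x, y] := fun x hx y hy =>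
    trd_dep hfd (n₁ := max n₀ n₁) (fun n hn => by
      have := hbig n hn
      omega) hng hx hy
  obtain ⟨m, hm⟩ : ∃ m, m = max n₀ n₁ := ⟨_, rfl⟩
  have h2 : 2 ≤ h0 (P ^ m) 1 := hbig m (by rw [hm])
  have h4 : 1 < Module.finrank k (secL (P ^ m) 1) := h2
  haveI := hfd (P ^ m)
  haveI : Nontrivial (secL (P ^ m) 1) := Module.nontrivial_of_finrank_pos (R := k) (by omega)
  obtain ⟨b, hb0⟩ := exists_ne (0 : secL (P ^ m) 1)
  obtain ⟨a, hab⟩ := exists_linearIndependent_pair_of_one_lt_finrank h4 hb0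
  have hab' : LinearIndependent k ![(b : K), (a : K)] := by
    have h5 := hab.map' (secL (P ^ m) 1).subtype (Submodule.ker_subtype _)
    have h6 : (⇑(secL (P ^ m) 1).subtype ∘ ![b, a]) = ![(b : K), (a : K)] := by
      funext i
      fin_cases i <;> rfl
    rwa [h6] at h5
  have ha0 : (a : K) ≠ 0 := hab'.ne_zero 1
  have hb0' : (b : K) ≠ 0 := hab'.ne_zero 0
  have htr := tra_of hab'
  obtain ⟨G, s, t, hs, ht, hs0, ht0, hst, hcop, hG1, hG2⟩ := pcl h hr hP h3 hPPA a.2 b.2 ha0 hb0'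
  have hmem : s / t ∈ qF P := by
    rw [hst]
    exact ⟨m, a, b, a.2, b.2, hb0', div_mul_cancel₀ _ hb0'⟩
  have hle : IntermediateField.adjoin k {s / t} ≤ qF P := by
    rw [IntermediateField.adjoin_le_iff]
    rintro _ rfl
    exact hmem
  refine ⟨qF P, G, s, t, fun x => x.2, fun m a b ha hb hb0 => ⟨⟨a / b, ⟨m, a, b, ha, hb, hb0, div_mul_cancel₀ _ hb0⟩⟩,
    div_mul_cancel₀ _ hb0⟩, ?_, hs, ht, hs0, ht0, ?_, hcop, hG1, hG2, hle, ?_⟩
  · exact trd_one _ hdep hmem (by rw [hst]; exact htr)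
  · rw [hst]
    exact htr
  · exact fin_alg (K_fg h.var h.gen) _ _ hle fun x hx =>
      alg_of _ hdep hmem (by rw [hst]; exact htr) hx

end Pool.Agent.H59.KI
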