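import Pool.Agent.H83.TU.RA

/-!
# [H59 KI FinA] ABUNDANCE (MP_e49dc9_ag): algebraic subextensions of finitely generated extensions are finite

`K / k` finitely generated, `E ≤ F ≤ K`, `F` algebraic over `E`, `E` finitely generated over `k`: `F / E` is finite.
PROOF. `K / F` has a finite transcendence basis `x` (`K / F` finitely generated), algebraically independent over `E`, and `K` is algebraic, so finite, over `E(x)`.  Elements of
`F` which are linearly independent over `E` are independent over `E(x)`: clear denominators, `∑ p_i(x) f_i = 0`, `p_i ∈ E[x]`; the coefficients `∑_i (p_i)_m f_i ∈ F` vanish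
because `x` is algebraically independent over `F`.  So `[F : E] ≤ [K : E(x)]`.
-/

set_option autoImplicit false

namespace Pool.Agent.H59.KI

/-- algebraically independent elements over `F` do not destroy linear independence over `E` -/
private theorem fin_li {E F K : Type} [Field E] [Field F] [Field K] [Algebra E F] [Algebra F K] [Algebra E K]
    [IsScalarTower E F K] {τ : Type} {x : τ → K} (hx : AlgebraicIndependent F x) {ι : Type} {b : ι → F}
    (hb : LinearIndependent E b) :
    LinearIndependent (Algebra.adjoin E (Set.range x)) (fun i => algebraMap F K (b i)) := by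
  classical
  rw [linearIndependent_iff']
  intro s g hg
  have h1 : ∀ i, ∃ p : MvPolynomial τ E, MvPolynomial.aeval x p = (g i : K) := fun i => by
    have h2 : ∀ a ∈ Algebra.adjoin E (Set.range x), ∃ p : MvPolynomial τ E, MvPolynomial.aeval x p = a := by
      intro a ha
      rw [Algebra.adjoin_range_eq_range_aeval] at ha
      exact ha
    exact h2 _ (g i).2
  choose p hp using h1
  have h2 : ∑ i ∈ s, MvPolynomial.C (b i) * MvPolynomial.map (algebraMap E F) (p i) = 0 := by
    apply hx.eq_zero_of_aeval_eq_zero
    rw [map_sum]
    refine (Finset.sum_congr rfl fun i _ => ?_).trans hg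
    rw [map_mul, MvPolynomial.aeval_C, MvPolynomial.aeval_map_algebraMap, hp, Algebra.smul_def, mul_comm]
    rfl
  have h3 : ∀ i ∈ s, p i = 0 := by
    intro i hi
    ext m
    have h4 := congrArg (MvPolynomial.coeff m) h2
    rw [MvPolynomial.coeff_sum] at h4
    have h5 : ∑ j ∈ s, MvPolynomial.coeff m (p j) • b j = 0 := by
      refine (Finset.sum_congr rfl fun j _ => ?_).trans h4
      rw [MvPolynomial.coeff_C_mul, MvPolynomial.coeff_map, Algebra.smul_def, mul_comm]
    exact linearIndependent_iff'.1 hb s _ h5 i hi
  intro i hi
  apply Subtype.ext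
  rw [← hp i, h3 i hi, map_zero]
  rfl

open scoped IntermediateField.algebraAdjoinAdjoin in
private theorem fin_aux {E F K : Type} [Field E] [Field F] [Field K] [Algebra E F] [Algebra F K] [Algebra E K]
    [IsScalarTower E F K] [Algebra.IsAlgebraic E F] (hfg : (⊤ : IntermediateField E K).FG) :
    FiniteDimensional E F := by
  obtain ⟨s, hs⟩ := hfg
  -- `K` is algebraic over `E[s]`
  have h1 : Algebra.IsAlgebraic (Algebra.adjoin E (s : Set K)) K := ⟨fun a => by
    have h2 : a ∈ IntermediateField.adjoin E (s : Set K) := by
      rw [hs]
      exact IntermediateField.mem_top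
    obtain ⟨y, hy, z, hz, rfl⟩ := IntermediateField.mem_adjoin_iff_div.1 h2
    rw [div_eq_mul_inv]
    exact (isAlgebraic_algebraMap (⟨y, hy⟩ : Algebra.adjoin E (s : Set K))).mul
      (isAlgebraic_algebraMap (⟨z, hz⟩ : Algebra.adjoin E (s : Set K))).inv⟩
  obtain ⟨t, hts, ht⟩ := exists_isTranscendenceBasis_subset (R := E) (s : Set K)
  have htF : AlgebraicIndependent F ((↑) : t → K) := ht.1.extendScalars F
  -- `K` is finite over `L = E(t)`
  obtain ⟨L, hL⟩ : ∃ L : IntermediateField E K, L = IntermediateField.adjoin E (Set.range ((↑) : t → K)) := ⟨_, rfl⟩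
  have halg : ∀ a : K, IsIntegral L a := fun a => by
    have h2 := ht.isAlgebraic.1 a
    obtain ⟨q, hq0, hq⟩ := h2
    have hle : Algebra.adjoin E (Set.range ((↑) : t → K)) ≤ L.toSubalgebra := by
      rw [hL]
      exact IntermediateField.algebra_adjoin_le_adjoin _ _
    refine isAlgebraic_iff_isIntegral.1 ⟨q.map (Subalgebra.inclusion hle).toRingHom, ?_, ?_⟩
    · intro h3
      apply hq0
      exact Polynomial.map_injective _ (Subalgebra.inclusion_injective hle) (by rw [h3, Polynomial.map_zero])
    · rw [← hq, Polynomial.aeval_def, Polynomial.aeval_def, Polynomial.eval₂_map]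
      rfl
  have hLs : IntermediateField.adjoin L (s : Set K) = ⊤ := by
    rw [eq_top_iff]
    intro a _
    have h2 : a ∈ IntermediateField.adjoin E (s : Set K) := by
      rw [hs]
      exact IntermediateField.mem_top
    have h3 : IntermediateField.adjoin E (s : Set K) ≤ (IntermediateField.adjoin L (s : Set K)).restrictScalars E := by
      rw [IntermediateField.adjoin_le_iff]
      exact IntermediateField.subset_adjoin L (s : Set K)
    exact h3 h2
  have hfin : FiniteDimensional L K := by
    have h2 : Finite (s : Set K) := s.finite_toSet
    have h3 : FiniteDimensional L (IntermediateField.adjoin L (s : Set K)) :=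
      IntermediateField.finiteDimensional_adjoin fun a _ => halg a
    rw [hLs] at h3
    exact Module.Finite.of_surjective (IntermediateField.topEquiv (F := L) (E := K)).toLinearMap
      (IntermediateField.topEquiv (F := L) (E := K)).surjective
  -- a basis of `F / E` is independent over `L`
  have hb := (Module.Basis.ofVectorSpace E F)
  have h5 := fin_li (K := K) htF hb.linearIndependent
  subst hL
  have h6 : LinearIndependent (IntermediateField.adjoin E (Set.range ((↑) : t → K)))
      (fun i => algebraMap F K (hb i)) :=
    (LinearIndependent.iff_fractionRing (Algebra.adjoin E (Set.range ((↑) : t → K))) _).1 h5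
  have h7 := h6.finite
  exact Module.Finite.of_basis hb

theorem fin_alg {k K : Type} [Field k] [Field K] [Algebra k K] (hfg : (⊤ : IntermediateField k K).FG)
    (E F : IntermediateField k K) (hEF : E ≤ F)
    (halg : ∀ x ∈ F, IsAlgebraic E x) : FiniteDimensional E (IntermediateField.extendScalars hEF) := by
  have h1 : (⊤ : IntermediateField E K).FG := by
    obtain ⟨s, hs⟩ := hfg
    refine ⟨s, ?_⟩
    have h1 : IntermediateField.adjoin k (s : Set K) ≤
        (IntermediateField.adjoin E (s : Set K)).restrictScalars k := by
      rw [IntermediateField.adjoin_le_iff]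
      exact IntermediateField.subset_adjoin E (s : Set K)
    rw [eq_top_iff]
    intro a _
    have h2 : a ∈ (⊤ : IntermediateField k K) := IntermediateField.mem_top
    rw [← hs] at h2
    exact h1 h2
  have h2 : Algebra.IsAlgebraic E (IntermediateField.extendScalars hEF) := ⟨fun x =>
    (isAlgebraic_algHom_iff (IntermediateField.extendScalars hEF).val Subtype.val_injective).1 (halg x x.2)⟩
  exact fin_aux (K := K) h1

end Pool.Agent.H59.KI
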