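import Pool.Agent.H24.TK.Frm

/-!
# [H59 KI QF] ABUNDANCE (MP_e49dc9_ag): the field of the quotients of the sections of the multiples of `P`

`qF P`: the set of the `f ∈ K` with `f b = a`, `a, b` sections of some `P ^ m`, `b ≠ 0`.
-/

set_option autoImplicit false

namespace Pool.Agent.H59.KI

open Pool.Agent.H54.RV Pool.Agent.H83.TU Pool.Agent.H24.TK

variable {k K : Type} [Field k] [Field K] [Algebra k K] {X : Mod k K} (P : Cart X)

theorem sec_one : Sec (P ^ 0) 1 (1 : K) := by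
  intro x
  rw [pow_zero, one_mul, pow_one]
  exact (X.O x).one_mem

variable {P}

theorem sec_mulP {m n : ℕ} {a b : K} (ha : Sec (P ^ m) 1 a) (hb : Sec (P ^ n) 1 b) : Sec (P ^ (m + n)) 1 (a * b) := by
  rw [pow_add]
  exact sec_mul' _ _ _ _ ha hb

theorem sec_powP {m : ℕ} {a : K} (ha : Sec (P ^ m) 1 a) (n : ℕ) : Sec (P ^ (m * n)) 1 (a ^ n) := by
  induction n with
  | zero =>
    rw [pow_zero]
    exact sec_one P
  | succ n ih =>
    rw [pow_succ a]
    exact sec_mulP ih ha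

theorem sec_addP {m : ℕ} {a b : K} (ha : Sec (P ^ m) 1 a) (hb : Sec (P ^ m) 1 b) : Sec (P ^ m) 1 (a + b) :=
  (secL (P ^ m) 1).add_mem ha hb

variable (P)

/-- the field of the quotients -/
def qF : IntermediateField k K where
  carrier := {f | ∃ (m : ℕ) (a b : K), Sec (P ^ m) 1 a ∧ Sec (P ^ m) 1 b ∧ b ≠ 0 ∧ f * b = a}
  mul_mem' := by
    rintro f g ⟨m, a, b, ha, hb, hb0, h⟩ ⟨n, a', b', ha', hb', hb0', h'⟩
    exact ⟨m + n, a * a', b * b', sec_mulP ha ha', sec_mulP hb hb', mul_ne_zero hb0 hb0', by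
      rw [← h, ← h']
      ring⟩
  one_mem' := ⟨0, 1, 1, sec_one P, sec_one P, one_ne_zero, one_mul 1⟩
  add_mem' := by
    rintro f g ⟨m, a, b, ha, hb, hb0, h⟩ ⟨n, a', b', ha', hb', hb0', h'⟩
    refine ⟨m + n, a * b' + b * a', b * b', sec_addP (sec_mulP ha hb') (sec_mulP hb ha'), sec_mulP hb hb',
      mul_ne_zero hb0 hb0', by
        rw [← h, ← h']
        ring⟩
  zero_mem' := ⟨0, 0, 1, (secL (P ^ 0) 1).zero_mem, sec_one P, one_ne_zero, zero_mul 1⟩
  algebraMap_mem' := fun c => ⟨0, algebraMap k K c, 1, by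
    have := (secL (P ^ 0) 1).smul_mem c (sec_one P)
    rw [Algebra.smul_def, mul_one] at this
    exact this, sec_one P, one_ne_zero, mul_one _⟩
  inv_mem' := by
    rintro f ⟨m, a, b, ha, hb, hb0, h⟩
    by_cases hf : f = 0
    · exact ⟨0, 0, 1, (secL (P ^ 0) 1).zero_mem, sec_one P, one_ne_zero, by rw [hf, inv_zero, zero_mul]⟩
    · have ha0 : a ≠ 0 := by
        rw [← h]
        exact mul_ne_zero hf hb0
      exact ⟨m, b, a, hb, ha, ha0, by
        rw [← h, inv_mul_cancel_left₀ hf]⟩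

theorem mem_qF (f : K) : f ∈ qF P ↔ ∃ (m : ℕ) (a b : K), Sec (P ^ m) 1 a ∧ Sec (P ^ m) 1 b ∧ b ≠ 0 ∧ f * b = a :=
  Iff.rfl

end Pool.Agent.H59.KI
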